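import Mathlib
import Pool.Agent.H.MP_562107_co.A

set_option autoImplicit false

namespace Pool.Agent.Results.MP_562107_co.Counter

open SimpleGraph PowerSeries

noncomputable def E (d m n : ℕ) : ℕ :=
  {h : Fin m × Fin n → ℤ | (∀ u v, (pathGraph m □ pathGraph n).Adj u v → |h u - h v| = 1) ∧
    (∀ u, u.1.val = 0 → u.2.val = 0 → h u = 0) ∧
    {v | (∀ u, (pathGraph m □ pathGraph n).Adj v u → h u = h v + 1) ∨
      ∀ u, (pathGraph m □ pathGraph n).Adj v u → h u = h v - 1}.ncard = d}.ncard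

noncomputable def F (d m : ℕ) : ℚ⟦X⟧ := mk fun n => if 2 ≤ n then (E d m n : ℚ) else 0

open Pool.Agent.H.MP_562107_co Finset

theorem adj {n : ℕ} (i : Fin 2) (j : Fin n) (P : Fin 2 × Fin n → Prop) :
    (∀ u, (pathGraph 2 □ pathGraph n).Adj (i, j) u → P u) ↔
      P (i + 1, j) ∧ ∀ k : Fin n, (j.val + 1 = k ∨ k.val + 1 = j) → P (i, k) := by
  simp only [Prod.forall, boxProd_adj, pathGraph_adj]
  have k : ∀ i x : Fin 2, (i.val + 1 = x ∨ x.val + 1 = i) ↔ x = i + 1 := by decide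
  constructor
  · exact fun h => ⟨h _ _ (.inl ⟨(k _ _).2 rfl, rfl⟩), fun k hk => h _ _ (.inr ⟨hk, rfl⟩)⟩
  · rintro ⟨a, b⟩ x y (⟨h, rfl⟩ | ⟨h, rfl⟩)
    · rwa [(k _ _).1 h]
    · exact b y h

theorem ext_eq {n : ℕ} (h : Fin 2 × Fin (n + 1) → ℤ) (hv : ∀ j, |h (0, j) - h (1, j)| = 1) :
    {v | (∀ u, (pathGraph 2 □ pathGraph (n + 1)).Adj v u → h u = h v + 1) ∨
      ∀ u, (pathGraph 2 □ pathGraph (n + 1)).Adj v u → h u = h v - 1}.ncard =
    ex True (fun j => h (0, j)) (fun j => h (1, j)) +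
      ex True (fun j => h (1, j)) (fun j => h (0, j)) := by
  classical
  rw [Set.ncard_eq_toFinset_card', Set.toFinset_ofPred, card_filter, Fintype.sum_prod_type,
    Fin.sum_univ_two]
  congr 1 <;> refine sum_congr rfl fun j _ => @if_congr _ _ _ _ (_) _ _ _ _ ?_ rfl rfl <;>
    rw [adj, adj] <;> rcases (abs_eq zero_le_one).1 (hv j) with e | e <;>
    simp only [imp_true_iff, true_and, zero_add, show (1 + 1 : Fin 2) = 0 from rfl]
  · rw [show h (0, j) - 1 = h (1, j) by omega]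
    simp only [show h (1, j) ≠ h (0, j) + 1 by omega, false_and, false_or, true_and]
  · rw [show h (0, j) + 1 = h (1, j) by omega]
    simp only [show h (1, j) ≠ h (0, j) - 1 by omega, false_and, or_false, true_and]
  · rw [show h (1, j) + 1 = h (0, j) by omega]
    simp only [show h (0, j) ≠ h (1, j) - 1 by omega, false_and, or_false, true_and]
  · rw [show h (1, j) - 1 = h (0, j) by omega]
    simp only [show h (0, j) ≠ h (1, j) + 1 by omega, false_and, false_or, true_and]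

theorem E_eq (d n : ℕ) : E d 2 (n + 1) = 2 * v n true true d := by
  classical
  let φ : (Fin 2 × Fin (n + 1) → ℤ) → Fin (n + 1) → ℤ × ℤ := fun h j => (h (0, j), h (1, j))
  have hφ : Function.Bijective φ := ⟨fun h h' e => funext fun ⟨i, j⟩ => by
    have := Prod.ext_iff.1 (congrFun e j)
    fin_cases i
    exacts [this.1, this.2], fun g => ⟨fun u => if u.1 = 0 then (g u.2).1 else (g u.2).2, rfl⟩⟩
  have a1 : |((0, 1) : ℤ × ℤ).1 - ((0, 1) : ℤ × ℤ).2| = 1 := rfl
  have a2 : |((0, -1) : ℤ × ℤ).1 - ((0, -1) : ℤ × ℤ).2| = 1 := rfl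
  rw [two_mul]
  nth_rw 1 [← cnt n _ a1 True True true true (by simp) (by simp)]
  rw [← cnt n _ a2 True True true true (by simp) (by simp), ← card_union_of_disjoint,
    ← filter_union, ← Set.ncard_coe_finset, ← Set.ncard_preimage_of_injective_subset_range
      (f := φ) hφ.1 (by simp [hφ.2.range_eq])]
  · refine congrArg _ (Set.ext fun h => ?_)
    simp only [Set.mem_ofPred_eq, Set.mem_preimage, mem_coe, mem_filter, mem_union,
      mem_W n _ a1, mem_W n _ a2, ← or_and_right, ← and_assoc]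
    have key : (∀ u v, (pathGraph 2 □ pathGraph (n + 1)).Adj u v → |h u - h v| = 1) ↔
        (∀ j, |h (0, j) - h (1, j)| = 1) ∧ ∀ j : Fin n, |h (0, j.succ) - h (0, j.castSucc)| = 1 ∧
          |h (1, j.succ) - h (1, j.castSucc)| = 1 := by
      constructor
      · exact fun a => ⟨fun j => a _ _ (.inl ⟨pathGraph_adj.2 (.inl rfl), rfl⟩), fun j =>
          ⟨a _ _ (.inr ⟨pathGraph_adj.2 (.inr rfl), rfl⟩),
            a _ _ (.inr ⟨pathGraph_adj.2 (.inr rfl), rfl⟩)⟩⟩
      · rintro ⟨a, b⟩ ⟨i, j⟩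
        rw [adj]
        have c : ∀ j k : Fin (n + 1), j.val + 1 = k → |h (i, k) - h (i, j)| = 1 := fun j k e => by
          have := b ⟨j, by omega⟩
          rw [show k = Fin.succ ⟨j, by omega⟩ from Fin.ext e.symm]
          fin_cases i
          exacts [this.1, this.2]
        refine ⟨?_, fun k hk => hk.elim (fun e => (abs_sub_comm _ _).trans (c _ _ e)) (c _ _)⟩
        fin_cases i
        exacts [a j, (abs_sub_comm _ _).trans (a j)]
    have k2 : ((∀ u v, (pathGraph 2 □ pathGraph (n + 1)).Adj u v → |h u - h v| = 1) ∧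
        ∀ u : Fin 2 × Fin (n + 1), u.1.val = 0 → u.2.val = 0 → h u = 0) ↔
        (φ h 0 = (0, 1) ∨ φ h 0 = (0, -1)) ∧
          ∀ j : Fin n, ok (φ h j.castSucc) (φ h j.succ) := by
      rw [key]
      simp only [φ, ok, Prod.mk.injEq, Fin.forall_fin_succ (P := fun j => |h (0, j) - _| = 1),
        forall_and, Prod.forall, Fin.val_eq_zero_iff]
      constructor
      · rintro ⟨⟨⟨a, b⟩, c, e⟩, f⟩
        have := f 0 0 rfl rfl
        rw [abs_eq zero_le_one] at a
        exact ⟨by omega, c, e, b⟩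
      · rintro ⟨a, c, e, b⟩
        refine ⟨⟨⟨by rw [abs_eq zero_le_one]; omega, b⟩, c, e⟩, ?_⟩
        rintro _ _ rfl rfl
        omega
    rw [← k2]
    exact and_congr_right fun a => by rw [ext_eq h (key.1 a.1).1]
  · refine disjoint_left.2 fun g a b => ?_
    have := ((mem_W n _ a1 g).1 (mem_filter.1 a).1).1.symm.trans
      ((mem_W n _ a2 g).1 (mem_filter.1 b).1).1
    simp at this

theorem result : ∃ Q : Polynomial ℚ, F 6 2 * (1 - X) ^ 5 = 4 + (1 - X) ^ 2 * (Q : ℚ⟦X⟧) := by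
  let a : ℕ → ℚ := fun n => coeff n (F 6 2)
  have ha : ∀ n, a (n + 1) = 2 * v n true true 6 := fun n => by
    simp only [a, F, coeff_mk, E_eq]
    cases n <;> simp [v]
  have h0 : a 0 = 0 := by simp [a, F]
  have hv : ∀ n < 8, v n true true 6 = [0, 0, 1, 6, 22, 64, 148, 292].getD n 0 := by
    decide +kernel
  refine ⟨-.C 4 - .C 8 * .X - .C 12 * .X ^ 2 - .C 14 * .X ^ 3 - .C 14 * .X ^ 4 - .C 10 * .X ^ 5 +
    .C 2 * .X ^ 6, ?_⟩
  have e : F 6 2 * (1 - X) ^ 5 = F 6 2 - C 5 * (F 6 2 * X ^ 1) + C 10 * (F 6 2 * X ^ 2) -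
      C 10 * (F 6 2 * X ^ 3) + C 5 * (F 6 2 * X ^ 4) - F 6 2 * X ^ 5 := by
    simp only [map_ofNat]
    ring
  have e' : F 6 2 * (1 - X) ^ 5 = C 2 * X ^ 3 + C 2 * X ^ 4 + C 4 * X ^ 5 + C 8 * X ^ 6 -
      C 14 * X ^ 7 + C 2 * X ^ 8 := by
    rw [e]
    ext n
    simp only [map_add, map_sub, coeff_C_mul, coeff_mul_X_pow', coeff_X_pow]
    change a n - 5 * (if _ then a _ else _) + 10 * (if _ then a _ else _) -
      10 * (if _ then a _ else _) + 5 * (if _ then a _ else _) - (if _ then a _ else _) = _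
    by_cases hn : n < 9
    · interval_cases n <;> simp [h0, ha, hv] <;> norm_num
    · obtain ⟨k, rfl⟩ : ∃ k, n = k + 9 := ⟨n - 9, by omega⟩
      have := congrArg (Nat.cast (R := ℚ)) (rec5 k true true 6 (by simp))
      push_cast at this
      simp [ha]
      linarith
  rw [e']
  push_cast
  simp only [map_ofNat]
  ring

end Pool.Agent.Results.MP_562107_co.Counter
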